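import Pool.Agent.Run7.h49.JT.Iface

/-!
# Piece N1 of project JT (MP_245e03_an Q2): a non-separable subspace has many branches
-/

set_option autoImplicit false

namespace Run7.h639.JT

open Pool.Agent.R277.JT Run7.h49.JT Set Filter Topology

instance : Countable Tree := inferInstanceAs (Countable (List Bool))

lemma es_ev (a b : Tree) [Decidable (b = a)] : es a (ev b) = if b = a then 1 else 0 := by
  classical
  rw [es_apply, val_ev]
  split_ifs <;> rfl

lemma cut_lo_eq (f : D Tree) (k : ℕ) :
    cut f (lo Tree k) = ∑ a ∈ (Lev.fin (I := Tree) k).toFinset, f (ev a) • es a := by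
  classical
  apply D_ext
  intro i
  rw [sum_apply]
  by_cases hi : i ∈ lo Tree k
  · rw [cut_ev f hi, Finset.sum_eq_single i]
    · rw [smul_apply, es_ev, if_pos rfl, smul_eq_mul, mul_one]
    · intro b _ hb
      rw [smul_apply, es_ev, if_neg hb.symm, smul_zero]
    · intro h
      exact absurd ((Lev.fin (I := Tree) k).mem_toFinset.2 hi) h
  · rw [cut_ev_not f hi]
    symm
    apply Finset.sum_eq_zero
    intro b hb
    have hne : ¬ i = b := by
      rintro rfl
      exact hi ((Lev.fin (I := Tree) k).mem_toFinset.1 hb)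
    rw [smul_apply, es_ev, if_neg hne, smul_zero]

/-- the branches which are seen by `Y` -/
def seen (Y : Submodule ℝ (D Tree)) : Set Br := {c | ∃ f ∈ Y, Lm (br c) f ≠ 0}

lemma not_countable_seen {Y : Submodule ℝ (D Tree)}
    (h : ¬ TopologicalSpace.IsSeparable (Y : Set (D Tree))) : ¬ (seen Y).Countable := by
  classical
  intro hc
  apply h
  let G : Set (D Tree) := range es ∪ ⋃ c ∈ seen Y, range fun k : ℕ => sg (br c) k
  have hG : G.Countable := (countable_range es).union (hc.biUnion fun c _ => countable_range _)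
  have hsep : TopologicalSpace.IsSeparable (closure (Submodule.span ℝ G : Set (D Tree))) :=
    (hG.isSeparable.span (R := ℝ)).closure
  refine hsep.mono ?_
  intro f hf
  rw [Metric.mem_closure_iff]
  intro ε hε
  obtain ⟨F, hF⟩ := structA f (half_pos hε)
  obtain ⟨k, hk⟩ := hF F (Finset.Subset.refl F)
  have hk := hk k le_rfl
  refine ⟨cut f (lo Tree k) + ∑ c ∈ F, Lm (br c) f • sg (br c) k, ?_, ?_⟩
  · apply Submodule.add_mem
    · rw [cut_lo_eq]
      exact Submodule.sum_mem _ fun a _ => Submodule.smul_mem _ _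
        (Submodule.subset_span (Or.inl (mem_range_self a)))
    · refine Submodule.sum_mem _ fun c _ => ?_
      by_cases hcs : Lm (br c) f = 0
      · rw [hcs, zero_smul]
        exact Submodule.zero_mem _
      · refine Submodule.smul_mem _ _ (Submodule.subset_span (Or.inr ?_))
        exact mem_biUnion (show c ∈ seen Y from ⟨f, hf, hcs⟩) (mem_range_self k)
  · rw [dist_eq_norm]
    have h1 : f - (cut f (lo Tree k) + ∑ c ∈ F, Lm (br c) f • sg (br c) k) =
        cut f (lv Tree k) - ∑ c ∈ F, Lm (br c) f • sg (br c) k := by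
      have h2 : f - cut f (lo Tree k) = cut f (lv Tree k) :=
        sub_eq_of_eq_add' (cut_lo_add f k).symm
      rw [← sub_sub, h2]
    rw [h1]
    exact hk.trans_lt (half_lt_self hε)

/-- **N1** -/
theorem prove_N1 : S_N1 := by
  classical
  intro Y hY
  have hZ := not_countable_seen hY
  have h1 : ∀ c : Br, ∃ f : D Tree, c ∈ seen Y → f ∈ Y ∧ Lm (br c) f = 1 := by
    intro c
    by_cases hc : c ∈ seen Y
    · obtain ⟨f, hf, hne⟩ := hc
      refine ⟨(Lm (br c) f)⁻¹ • f, fun _ => ⟨Y.smul_mem _ hf, ?_⟩⟩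
      rw [Lm_smul, inv_mul_cancel₀ hne]
    · exact ⟨0, fun h => absurd h hc⟩
  choose y hy using h1
  have h2 : ∃ n : ℕ, ¬ {c ∈ seen Y | ‖y c‖ ≤ n}.Countable := by
    by_contra hcon
    push Not at hcon
    apply hZ
    have h3 : seen Y ⊆ ⋃ n : ℕ, {c ∈ seen Y | ‖y c‖ ≤ n} := by
      intro c hc
      obtain ⟨n, hn⟩ := exists_nat_ge ‖y c‖
      exact mem_iUnion.2 ⟨n, hc, hn⟩
    exact (countable_iUnion hcon).mono h3
  obtain ⟨n, hn⟩ := h2
  exact ⟨_, y, n, hn, fun c hc => ⟨(hy c hc.1).1, hc.2, (hy c hc.1).2⟩⟩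

end Run7.h639.JT
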