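import Pool.Agent.Run7.h49.JT.Iface

/-!
# Project JT (helper49), piece U1: different positive tails are disjoint
-/

set_option autoImplicit false

namespace Run7.h639.JT

open Pool.Agent.R277.JT Set Filter Topology Run7.h49.JT

lemma anc_refl (e : ℕ) : anc e e := ⟨0, by simp⟩

lemma anc_up {b e : ℕ} (h : anc b (e / 2)) : anc b e := by
  obtain ⟨j, hj⟩ := h
  exact ⟨j + 1, by rw [pow_succ', ← Nat.div_div_eq_div_mul]; exact hj⟩

lemma anc_down {b e : ℕ} (h : anc b e) (hne : e ≠ b) : anc b (e / 2) := by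
  obtain ⟨j, hj⟩ := h
  rcases j with _ | j
  · exact absurd (by simpa using hj) hne
  · exact ⟨j, by rw [pow_succ', ← Nat.div_div_eq_div_mul] at hj; exact hj⟩

lemma anc_le {b e : ℕ} (h : anc b e) : b ≤ e := by
  obtain ⟨j, hj⟩ := h
  rw [← hj]
  exact Nat.div_le_self _ _

lemma anc_half {b e : ℕ} (h : anc b e) : anc (b / 2) (e / 2) := by
  obtain ⟨j, hj⟩ := h
  exact ⟨j, by rw [← hj, Nat.div_div_eq_div_mul, Nat.div_div_eq_div_mul, mul_comm]⟩

lemma anc_half_self (e : ℕ) : anc (e / 2) e := ⟨1, by simp⟩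

lemma anc_trans {a b c : ℕ} (h : anc a b) (h' : anc b c) : anc a c := by
  obtain ⟨j, hj⟩ := h
  obtain ⟨l, hl⟩ := h'
  exact ⟨l + j, by rw [pow_add, ← Nat.div_div_eq_div_mul, hl, hj]⟩

variable {y : ℕ → D Tree} {σ : ℕ → ℕ → Br} {u : ℕ → ℕ → ℝ} {I : ℕ → Finset ℕ}
  {k K : ℕ → ℕ} {ε : ℕ → ℝ} {M : ℝ}

lemma I_mono (h : Scheme y σ u I k K ε M) {p : ℕ} : ∀ e : ℕ, anc p e → I p ⊆ I e := by
  intro e
  induction e using Nat.strong_induction_on with
  | _ e ih =>
    intro he
    by_cases h1 : e = p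
    · rw [h1]
    · have h2 : p ≤ e := anc_le he
      have h3 : 1 ≤ e := by omega
      exact (ih (e / 2) (by omega) (anc_down he h1)).trans (h.Isub e h3)

lemma br_eq_of {c d : Br} {m n : ℕ} (h : br c n = br d n) (hmn : m ≤ n) : br c m = br d m := by
  by_contra hne
  exact br_ne_of hne hmn h

/-- the step of the induction -/
lemma U1_step (h : Scheme y σ u I k K ε M) {b e b' e' : ℕ} (hb : 1 ≤ b) (hb' : 1 ≤ b') (ha : anc b e)
    (ha' : anc b' e') (hd : Disjoint (chain b e) (chain b' e')) (hlt : e' < e)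
    (ih : e ≠ b → ∀ i ∈ I (b / 2), ∀ i' ∈ I (b' / 2), ∀ n, br (σ (e / 2) i) n ≠ br (σ (b / 2) i) n →
      br (σ e' i') n ≠ br (σ (b' / 2) i') n → br (σ (e / 2) i) n ≠ br (σ e' i') n) :
    ∀ i ∈ I (b / 2), ∀ i' ∈ I (b' / 2), ∀ n, br (σ e i) n ≠ br (σ (b / 2) i) n →
      br (σ e' i') n ≠ br (σ (b' / 2) i') n → br (σ e i) n ≠ br (σ e' i') n := by
  intro i hi i' hi' n hn hn'
  have hbe := anc_le ha
  have he1 : 1 ≤ e := by omega
  have hiq : i ∈ I (e / 2) := I_mono h _ (anc_half ha) hi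
  have hi'e : i' ∈ I e' := I_mono h _ (anc_trans (anc_half_self b') ha') hi'
  have hag := h.agree e he1 i hiq
  rcases le_or_gt n (K e) with hnK | hnK
  · have h1 : br (σ e i) n = br (σ (e / 2) i) n := br_eq_of hag hnK
    by_cases heb : e = b
    · exfalso
      apply hn
      rw [h1, heb]
    · rw [h1] at hn ⊢
      exact ih heb i hi i' hi' n hn hn'
  · intro heq
    have h1 : br (σ (e / 2) i) (K e) = br (σ e' i') (K e) := by
      rw [← hag]
      exact br_eq_of heq hnK.le
    have h2 : σ (e / 2) i = σ e' i' := by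
      by_contra hne
      exact h.sep e (e / 2) (by omega) e' hlt i hiq i' hi'e hne h1
    by_cases heb : e = b
    · apply hn
      rw [heq, ← h2, heb]
    · have hbq := anc_down ha heb
      have hq1 : 1 ≤ e / 2 := hb.trans (anc_le hbq)
      have he'1 : 1 ≤ e' := hb'.trans (anc_le ha')
      have hiqq : i ∈ I (e / 2 / 2) := I_mono h _ (anc_half hbq) hi
      have hi'e' : i' ∈ I (e' / 2) := I_mono h _ (anc_half ha') hi'
      rcases lt_trichotomy e' (e / 2) with h3 | h3 | h3
      · exact h.fresh (e / 2) hq1 i hiqq e' h3 i' hi'e h2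
      · exact Set.disjoint_left.1 hd (show e / 2 ∈ chain b e from ⟨hbq, anc_half_self e⟩)
          (by rw [← h3]; exact ⟨ha', anc_refl e'⟩)
      · exact h.fresh e' he'1 i' hi'e' (e / 2) h3 i hiq h2.symm

/-- **U1** -/
theorem prove_U1 : S_U1 := by
  intro y σ u I k K ε M h
  have key : ∀ N : ℕ, ∀ b e b' e' : ℕ, e + e' = N → 1 ≤ b → 1 ≤ b' → anc b e → anc b' e' →
      Disjoint (chain b e) (chain b' e') →
      ∀ i ∈ I (b / 2), ∀ i' ∈ I (b' / 2), ∀ n, br (σ e i) n ≠ br (σ (b / 2) i) n →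
      br (σ e' i') n ≠ br (σ (b' / 2) i') n → br (σ e i) n ≠ br (σ e' i') n := by
    intro N
    induction N using Nat.strong_induction_on with
    | _ N ih =>
      intro b e b' e' hN hb hb' ha ha' hd
      have hbe := anc_le ha
      have hbe' := anc_le ha'
      rcases lt_trichotomy e' e with hlt | heq | hlt
      · refine U1_step h hb hb' ha ha' hd hlt fun heb => ?_
        refine ih (e / 2 + e') (by omega) b (e / 2) b' e' rfl hb hb' (anc_down ha heb) ha' ?_
        have hsub : chain b (e / 2) ⊆ chain b e := fun t ht => ⟨ht.1, anc_up ht.2⟩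
        exact hd.mono_left hsub
      · exfalso
        refine Set.disjoint_left.1 hd (show e ∈ chain b e from ⟨ha, anc_refl e⟩) ?_
        rw [← heq]
        exact ⟨ha', anc_refl e'⟩
      · intro i hi i' hi' n hn hn' heq
        refine U1_step h hb' hb ha' ha hd.symm hlt (fun heb => ?_) i' hi' i hi n hn' hn heq.symm
        intro j' hj' j hj m hm' hm
        refine (ih (e + e' / 2) (by omega) b e b' (e' / 2) rfl hb hb' ha (anc_down ha' heb) ?_
          j hj j' hj' m hm hm').symm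
        have hsub : chain b' (e' / 2) ⊆ chain b' e' := fun t ht => ⟨ht.1, anc_up ht.2⟩
        exact hd.mono_right hsub
  intro b e b' e' hb hb' ha ha' hd
  exact key _ b e b' e' rfl hb hb' ha ha' hd

end Run7.h639.JT
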