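import Pool.Agent.Run7.h49.JT.Iface

/-!
# Piece U6 of project JT (MP_245e03_an Q2): the numbering of the nodes of the dyadic tree
-/

set_option autoImplicit false

namespace Run7.h639.JT

open Pool.Agent.R277.JT Run7.h49.JT Set

/-- the numbering on lists -/
def iol (l : List Bool) : ℕ := List.foldl (fun n b => 2 * n + (if b then 1 else 0)) 1 l

lemma io_eq (t : Tree) : io t = iol (show List Bool from t) := rfl

lemma iol_snoc (l : List Bool) (b : Bool) : iol (l ++ [b]) = 2 * iol l + (if b then 1 else 0) := by
  unfold iol
  rw [List.foldl_append]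
  rfl

lemma iol_nil : iol [] = 1 := rfl

lemma iol_pos (l : List Bool) : 1 ≤ iol l := by
  induction l using List.reverseRecOn with
  | nil => exact le_rfl
  | append_singleton l b ih =>
    rw [iol_snoc]
    omega

lemma iol_snoc_half (l : List Bool) (b : Bool) : iol (l ++ [b]) / 2 = iol l := by
  rw [iol_snoc]
  split_ifs <;> omega

lemma iol_lt (l : List Bool) : iol l < 2 ^ (l.length + 1) := by
  induction l using List.reverseRecOn with
  | nil => rw [iol_nil]; norm_num
  | append_singleton l b ih =>
    rw [iol_snoc, List.length_append, List.length_singleton, pow_succ]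
    split_ifs <;> omega

lemma iol_inj : ∀ l m : List Bool, iol l = iol m → l = m := by
  intro l
  induction l using List.reverseRecOn with
  | nil =>
    intro m hm
    rcases List.eq_nil_or_concat' m with rfl | ⟨m', b, rfl⟩
    · rfl
    · exfalso
      rw [iol_snoc, iol_nil] at hm
      have := iol_pos m'
      omega
  | append_singleton l b ih =>
    intro m hm
    rcases List.eq_nil_or_concat' m with rfl | ⟨m', c, rfl⟩
    · exfalso
      rw [iol_snoc, iol_nil] at hm
      have := iol_pos l
      omega
    · rw [iol_snoc, iol_snoc] at hm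
      have h1 : iol l = iol m' := by
        split_ifs at hm <;> omega
      have h2 : b = c := by
        cases b <;> cases c <;> simp at hm ⊢ <;> omega
      rw [ih m' h1, h2]

lemma iol_append_div (l m : List Bool) : iol (l ++ m) / 2 ^ m.length = iol l := by
  induction m using List.reverseRecOn with
  | nil => simp
  | append_singleton m b ih =>
    rw [← List.append_assoc, List.length_append, List.length_singleton, pow_succ, mul_comm,
      ← Nat.div_div_eq_div_mul, iol_snoc_half, ih]

lemma iol_div {e : List Bool} {j n : ℕ} (h : iol e / 2 ^ j = n) (hn : 1 ≤ n) :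
    ∃ t, t <+: e ∧ iol t = n := by
  have hj : j ≤ e.length := by
    by_contra hc
    have h1 : iol e < 2 ^ j := (iol_lt e).trans_le (Nat.pow_le_pow_right (by norm_num) (by omega))
    rw [Nat.div_eq_of_lt h1] at h
    omega
  refine ⟨e.take (e.length - j), List.take_prefix _ _, ?_⟩
  have h2 := iol_append_div (e.take (e.length - j)) (e.drop (e.length - j))
  rw [List.take_append_drop, List.length_drop] at h2
  rw [← h2, ← h]
  congr 2
  omega

lemma anc_iol {s t : List Bool} : s <+: t ↔ anc (iol s) (iol t) := by
  constructor
  · rintro ⟨m, rfl⟩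
    exact ⟨m.length, iol_append_div s m⟩
  · rintro ⟨j, hj⟩
    obtain ⟨r, hr, hr2⟩ := iol_div hj (iol_pos s)
    rwa [iol_inj _ _ hr2] at hr

/-- **U6** -/
theorem prove_U6 : S_U6 := by
  refine ⟨fun t => iol_pos _, fun s t h => iol_inj _ _ h, fun t b => iol_snoc_half t b,
    fun s t => anc_iol, ?_⟩
  intro b e _
  ext n
  constructor
  · rintro ⟨h1, j, hj⟩
    have hn : 1 ≤ n := by
      obtain ⟨i, hi⟩ := h1
      by_contra hc
      have hn0 : n = 0 := by omega
      rw [hn0, Nat.zero_div] at hi
      have := iol_pos (show List Bool from b)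
      rw [io_eq] at hi
      omega
    obtain ⟨t, ht, htn⟩ := iol_div (e := (show List Bool from e)) hj hn
    refine ⟨(show Tree from t), ⟨?_, ht⟩, htn⟩
    rw [tree_le, anc_iol, show iol (show List Bool from (show Tree from t)) = n from htn]
    exact h1
  · rintro ⟨t, ⟨h1, h2⟩, rfl⟩
    exact ⟨anc_iol.1 h1, anc_iol.1 h2⟩

end Run7.h639.JT
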